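import Pool.Agent.helper58.FI.SpecC

/-!
# Project fi (MP_baa4d7_al), block F, row DOA: norm of a column
-/

set_option autoImplicit false

namespace Pool.Agent.FI

open Pool.Agent.helper58.DC Pool.Agent.DI Pool.Agent.GR Pool.Agent.OB Pool.Agent.DR

theorem DOA_ev_dl {G : Type} [Group G] [Finite G] (χ : G → ℂ) (g : G) : ev χ GR.dl g = χ g := by
  classical
  unfold ev GR.dl
  rw [finsum_eq_single _ (1 : G)]
  · simp
  · intro x hx
    simp [hx]

theorem DOA_ev_sub {G : Type} [Group G] [Finite G] (χ i j : G → ℂ) (g : G) :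
    ev χ (i - j) g = ev χ i g - ev χ j g := by
  classical
  have : Fintype G := Fintype.ofFinite G
  unfold ev
  rw [finsum_eq_sum_of_fintype, finsum_eq_sum_of_fintype, finsum_eq_sum_of_fintype,
    ← Finset.sum_sub_distrib]
  refine Finset.sum_congr rfl fun x _ => ?_
  rw [Pi.sub_apply]
  ring

/-- a number with bounded denominator which is `Small r` for all `r` is zero -/
theorem DOA_zero (hZER : ZER_stmt) {p : ℕ} {M : Ideal (integralClosure ℤ ℂ)} (hs : Setup p M)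
    (n : ℕ) (hn : n ≠ 0) (z : ℂ) (hz : IsIntegral ℤ ((n : ℂ) * z)) (hr : ∀ r, Small p M r z) :
    z = 0 := by
  have h1 : (n : ℂ) * z = 0 :=
    hZER p M hs _ hz fun r => Small.mul_left hs (IntAt.natCast hs n) (hr r)
  rcases mul_eq_zero.1 h1 with h2 | h2
  · exact absurd (by exact_mod_cast h2) hn
  · exact h2

theorem DOA (hKYH : KYH_stmt) (hTRX : TRX_stmt) (hFCO : FCO_stmt) (hIDM : IDM_stmt)
    (hEIN : EIN_stmt) (hCVF : CVF_stmt) (hZER : ZER_stmt) (hSFC : SFC_stmt) (hEVC : EVC_stmt)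
    (hB2 : B2_stmt) : DOA_stmt := by
  intro p M hs G _ _ H y hy hpy S hS
  classical
  have : Fintype G := Fintype.ofFinite G
  set C : Subgroup G := Cz H y with hC
  have hCH : C ≤ H := inf_le_left
  have hCc : ∀ g ∈ C, g * y = y * g := by
    intro g hg
    have h1 := (Subgroup.mem_inf.1 hg).2
    rw [Subgroup.mem_centralizer_iff] at h1
    exact (h1 y rfl).symm
  have hmem : ∀ g ∈ H, g⁻¹ * y * g = y → g ∈ C := by
    intro g hg he
    refine Subgroup.mem_inf.2 ⟨hg, ?_⟩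
    rw [Subgroup.mem_centralizer_iff]
    intro y' hy'
    rw [Set.mem_singleton_iff] at hy'
    rw [hy']
    have h1 : g * (g⁻¹ * y * g) = g * y := by rw [he]
    rw [← h1]
    group
  have hyC : y ∈ C := hmem y hy (by group)
  obtain ⟨hcf, -, hid, -⟩ := hIDM G C S hS.sub
  set h : G → ℂ := eS C S with hh
  have hint : ∀ x, IntAt M (h x) := hEIN p M hs G C S hS
  obtain ⟨-, hdis, -, hdl, -⟩ := hCVF G
  have hSub := hS.sub
  -- the complementary idempotent
  set i : G → ℂ := GR.dl - h with hi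
  have hiH : ∀ x, x ∉ H → i x = 0 := by
    intro x hx
    have h1 : x ≠ 1 := fun e => hx (e ▸ H.one_mem)
    have h2 : h x = 0 := hcf.2 x fun hc => hx (hCH hc)
    rw [hi, Pi.sub_apply, h2]
    simp [GR.dl, h1]
  have hhH : ∀ x, x ∉ H → h x = 0 := fun x hx => hcf.2 x fun hc => hx (hCH hc)
  have hii : ∀ x, IntAt M (i x) := by
    intro x
    rw [hi, Pi.sub_apply]
    refine IntAt.sub hs ?_ (hint x)
    unfold GR.dl
    split_ifs
    · exact IntAt.one hs
    · exact IntAt.zero hs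
  have hih : cv i h = 0 := by
    rw [hi, (hdis GR.dl h h).2.2.1, (hdl h).1, hid, sub_self]
  have hid' : cv i i = i := by
    have e1 : cv i i = cv i (GR.dl - h) := by rw [← hi]
    rw [e1, (hdis i GR.dl h).2.2.2, (hdl i).2, hih, sub_zero]
  have hpr1 : PReg p (1 : G) := by
    unfold PReg
    rw [orderOf_one, Nat.dvd_one]
    exact hs.pr.one_lt.ne'
  have hiy : ∀ x, i ((y * 1) * x * (y * 1)⁻¹) = i x := by
    intro x
    rw [mul_one, hi, Pi.sub_apply, Pi.sub_apply, hcf.1 y hyC x]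
    congr 1
    unfold GR.dl
    have : (y * x * y⁻¹ = 1) ↔ x = 1 := by
      rw [conj_eq_one_iff]
    simp [this]
  have hhy : ∀ x, h ((y * 1) * x * (y * 1)⁻¹) = h x := by
    intro x
    rw [mul_one]
    exact hcf.1 y hyC x
  have hcond : ∀ z ∈ H, ∀ w ∈ H, z⁻¹ * y * z = y → w⁻¹ * y * w = y →
      InM M (∑ᶠ x, i x * h (w⁻¹ * x⁻¹ * z)) := by
    intro z _ w hw _ hwy
    have hwC := hmem w hw hwy
    have e1 : ∑ᶠ x, i x * h (w⁻¹ * x⁻¹ * z) = cv i h (z * w⁻¹) := by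
      unfold cv
      refine finsum_congr fun x => ?_
      rw [← hcf.1 w hwC (w⁻¹ * x⁻¹ * z)]
      congr 2
      group
    rw [e1, hih]
    exact InM.zero hs
  have hsm := hKYH p M hs G H i h hiH hhH hii hint hid' hid y hy 1 H.one_mem y hy 1 H.one_mem hpy
    hpy hpr1 hpr1 (Commute.one_right y) (Commute.one_right y) hiy hhy hcond
  simp only [mul_one] at hsm
  have ht1 := hTRX G H i h hiH hhH y hy y hy
  rw [ht1] at hsm
  have hfin : (IrrOn H).Finite := (hB2 G H).1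
  have hev : ∀ χ' : G → ℂ, ev χ' i y = χ' y - ev χ' h y := by
    intro χ'
    rw [hi, DOA_ev_sub, DOA_ev_dl]
  have hsplit : ∑ᶠ χ' ∈ IrrOn H, ev χ' i y * ev χ' h y⁻¹ =
      ∑ᶠ χ' ∈ IrrOn H, χ' y * ev χ' h y⁻¹ - ∑ᶠ χ' ∈ IrrOn H, ev χ' h y * ev χ' h y⁻¹ := by
    rw [finsum_mem_eq_finite_toFinset_sum _ hfin, finsum_mem_eq_finite_toFinset_sum _ hfin,
      finsum_mem_eq_finite_toFinset_sum _ hfin, ← Finset.sum_sub_distrib]
    refine Finset.sum_congr rfl fun χ' _ => ?_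
    rw [hev χ']
    ring
  have hcard : Nat.card C ≠ 0 := Nat.card_pos.ne'
  have hyC' : y⁻¹ ∈ C := C.inv_mem hyC
  have hzero : ∑ᶠ χ' ∈ IrrOn H, ev χ' i y * ev χ' h y⁻¹ = 0 := by
    refine DOA_zero hZER hs (Nat.card C ^ 2) (pow_ne_zero _ hcard) _ ?_ hsm
    rw [finsum_mem_eq_finite_toFinset_sum _ hfin, Finset.mul_sum]
    refine IsIntegral.sum _ fun χ' hχ => ?_
    have hχ' : χ' ∈ IrrOn H := hfin.mem_toFinset.1 hχ
    have e1 := (hEVC G C H S hSub hCH χ' hχ' y hyC).2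
    have e2 := (hEVC G C H S hSub hCH χ' hχ' y⁻¹ hyC').2
    have e3 : IsIntegral ℤ (χ' y) := ((hB2 G H).2 χ' hχ').2.2.1 y
    have e4 : IsIntegral ℤ (Nat.card C : ℂ) := isIntegral_algebraMap (R := ℤ) (x := (Nat.card C : ℤ))
    have e5 : ((Nat.card C ^ 2 : ℕ) : ℂ) * (ev χ' i y * ev χ' h y⁻¹) =
        ((Nat.card C : ℂ) * χ' y - (Nat.card C : ℂ) * ev χ' h y) *
          ((Nat.card C : ℂ) * ev χ' h y⁻¹) := by
      rw [hev χ']
      push_cast
      ring
    rw [e5]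
    exact ((e4.mul e3).sub e1).mul e2
  rw [hzero] at hsplit
  have hAB := sub_eq_zero.1 hsplit.symm
  rw [← hAB]
  -- the sum of the `χ' y * ev χ' h y⁻¹`
  have hdlH : ∀ x, x ∉ H → (GR.dl : G → ℂ) x = 0 := by
    intro x hx
    have h1 : x ≠ 1 := fun e => hx (e ▸ H.one_mem)
    simp [GR.dl, h1]
  have ht2 := hTRX G H GR.dl h hdlH hhH y hy y hy
  simp only [DOA_ev_dl] at ht2
  rw [← ht2]
  have hf := hFCO p M hs G H y hy hpy S hS 1 C.one_mem 1 C.one_mem hpr1 hpr1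
  rw [← hC, ← hh] at hf
  simp only [mul_one] at hf
  have hsfc := (hSFC G C S hSub).2.2 y hyC (fun g hg => (hCc g hg).symm) 1 C.one_mem 1 C.one_mem
  simp only [mul_one] at hsfc
  rw [← hsfc, ← hf]
  refine finsum_mem_congr rfl fun z _ => ?_
  rw [finsum_eq_single _ (1 : G)]
  · simp only [GR.dl, if_true, one_mul, inv_one, mul_one]
    rw [← hcf.1 y hyC (z⁻¹ * y⁻¹ * z * y)]
    congr 1
    group
  · intro x hx
    simp [GR.dl, hx]

end Pool.Agent.FI
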