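import Pool.Agent.helper58.FI.SpecC

/-!
# Project fi (MP_baa4d7_al), block F, row EVC: facts on `ev`
-/

set_option autoImplicit false

namespace Pool.Agent.FI

open Pool.Agent.helper58.DC Pool.Agent.DI Pool.Agent.GR Pool.Agent.OB Pool.Agent.DR

/-- characters at inverses -/
theorem EVC_conj (hGLP : GLP_stmt) (G : Type) [Group G] [Finite G] (H : Subgroup G) (ψ : G → ℂ)
    (hψ : ψ ∈ IrrOn H) (g : G) : (starRingEnd ℂ) (ψ g) = ψ g⁻¹ := by
  have hn : 0 < Nat.card G := Nat.card_pos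
  have hcop : (Nat.card G - 1).Coprime (Nat.card G) := by
    obtain ⟨m, hm⟩ : ∃ m, Nat.card G = m + 1 := ⟨Nat.card G - 1, by omega⟩
    rw [hm]
    simp
  have h1 := hGLP G (starRingAut : ℂ ≃+* ℂ) (Nat.card G - 1) hcop ?_ H ψ hψ g
  · have h2 : g ^ (Nat.card G - 1) = g⁻¹ := by
      have h3 : g ^ (Nat.card G - 1) * g = 1 := by
        rw [← pow_succ, Nat.sub_add_cancel hn]
        exact pow_card_eq_one'
      exact eq_inv_of_mul_eq_one_left h3
    rw [h2] at h1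
    exact h1
  · intro ζ hζ
    have h4 : ζ ^ (Nat.card G - 1) * ζ = 1 := by
      rw [← pow_succ, Nat.sub_add_cancel hn, hζ]
    have h5 : ‖ζ‖ = 1 := by
      have h6 : ‖ζ‖ ^ Nat.card G = 1 := by rw [← norm_pow, hζ, norm_one]
      exact (pow_eq_one_iff_of_nonneg (norm_nonneg _) hn.ne').1 h6
    have h7 : ζ⁻¹ = (starRingEnd ℂ) ζ := Complex.inv_eq_conj h5
    have h8 : ζ ^ (Nat.card G - 1) = ζ⁻¹ := eq_inv_of_mul_eq_one_left h4
    rw [h8, h7]
    rfl

theorem EVC (hB2 : B2_stmt) (hGLP : GLP_stmt) : EVC_stmt := by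
  intro G _ _ C H S hS hCH χ' hχ' g hg
  classical
  have : Fintype G := Fintype.ofFinite G
  have hSf : S.Finite := (hB2 G C).1.subset hS
  have hcl := ((hB2 G H).2 χ' hχ').2.1
  have hint := ((hB2 G H).2 χ' hχ').2.2.1
  have he : ∀ x, eS C S x⁻¹ = (starRingEnd ℂ) (eS C S x) := by
    intro x
    unfold eS
    rw [map_div₀]
    congr 1
    · have h1 : (starRingEnd ℂ) (∑ᶠ ψ ∈ S, ψ 1 * ψ x⁻¹) =
          ∑ᶠ ψ ∈ S, (starRingEnd ℂ) (ψ 1 * ψ x⁻¹) :=
        (starRingEnd ℂ).toAddMonoidHom.map_finsum_mem (fun ψ : G → ℂ => ψ 1 * ψ x⁻¹) hSf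
      rw [h1]
      refine finsum_mem_congr rfl fun ψ hψ => ?_
      rw [map_mul, EVC_conj hGLP G C ψ (hS hψ) 1, EVC_conj hGLP G C ψ (hS hψ) x⁻¹, inv_one]
    · simp
  constructor
  · unfold ev
    rw [finsum_eq_sum_of_fintype, finsum_eq_sum_of_fintype, map_sum]
    rw [← Equiv.sum_comp (Equiv.inv G)]
    refine Finset.sum_congr rfl fun x _ => ?_
    rw [Equiv.inv_apply, he, map_mul]
    congr 1
    have h2 : g⁻¹ * x⁻¹ = (x * g)⁻¹ := by group
    rw [h2, ← EVC_conj hGLP G H χ' hχ' (x * g)]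
    congr 1
    have h3 := hcl (x * g) g (hCH hg)
    rw [← h3]
    congr 1
    group
  · unfold ev
    rw [finsum_eq_sum_of_fintype, Finset.mul_sum]
    refine IsIntegral.sum _ fun x _ => ?_
    rw [← mul_assoc]
    refine IsIntegral.mul ?_ (hint _)
    unfold eS
    have hc : (Nat.card C : ℂ) ≠ 0 := by
      have : Nat.card C ≠ 0 := Nat.card_pos.ne'
      exact_mod_cast this
    rw [mul_div_cancel₀ _ hc, finsum_mem_eq_finite_toFinset_sum _ hSf]
    refine IsIntegral.sum _ fun ψ hψ => ?_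
    have hψ' : ψ ∈ IrrOn C := hS (hSf.mem_toFinset.1 hψ)
    exact (((hB2 G C).2 ψ hψ').2.2.1 _).mul (((hB2 G C).2 ψ hψ').2.2.1 _)

end Pool.Agent.FI
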